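import Pool.Agent.W945.Pw.Stm2

/-! # Removing the unused gates -/

set_option autoImplicit false

namespace Pool.Agent.W340.Pw.USED

open Pool.Agent.W945.Pw

variable {n s : ℕ}

theorem val_rule (C : Circuit n s) (x : Fin n → Bool) (v : Fin s) :
    C.val x v = (C.gate v).rule x (C.val x) := by
  rw [Circuit.val]
  split <;> rename_i h <;> simp [Gate.rule, h]

theorem rule_congr (C : Circuit n s) (x : Fin n → Bool) (v : Fin s) (a a' : Fin s → Bool)
    (h : ∀ u, C.Wire u v → a u = a' u) : (C.gate v).rule x a = (C.gate v).rule x a' := by
  cases hg : C.gate v with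
  | input i => rfl
  | const c => rfl
  | op g u w =>
    simp only [Gate.rule]
    rw [h u ⟨g, u, w, hg, Or.inl rfl⟩, h w ⟨g, u, w, hg, Or.inr rfl⟩]

theorem main : USED.Stm := by
  classical
  intro n s C o
  let gt : Fin s → Gate n s := fun v => if C.Used o v then C.gate v else Gate.const false
  have hpos : ∀ v, C.Used o v → gt v = C.gate v := fun v h => if_pos h
  have hneg : ∀ v, ¬ C.Used o v → gt v = Gate.const false := fun v h => if_neg h
  have hop : ∀ v g a b, gt v = Gate.op g a b → C.Used o v ∧ C.gate v = Gate.op g a b := by
    intro v g a b h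
    by_cases hv : C.Used o v
    · rw [hpos v hv] at h
      exact ⟨hv, h⟩
    · rw [hneg v hv] at h
      cases h
  have hin : ∀ v i, gt v = Gate.input i → C.gate v = Gate.input i := by
    intro v i h
    by_cases hv : C.Used o v
    · rw [hpos v hv] at h
      exact h
    · rw [hneg v hv] at h
      cases h
  let C' : Circuit n s :=
    { gate := gt
      acyclic := fun v g a b h => C.acyclic v g a b (hop v g a b h).2
      once := fun v w i h h' => C.once v w i (hin v i h) (hin w i h') }
  have hval : ∀ x v, C.Used o v → C'.val x v = C.val x v := by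
    intro x v
    induction v using WellFoundedLT.induction with
    | ind v ih =>
      intro hv
      rw [val_rule C', val_rule C]
      have e : C'.gate v = C.gate v := hpos v hv
      rw [e]
      apply rule_congr
      intro u hu
      have hu' := hu
      obtain ⟨g, a, b, hg, hu⟩ := hu
      have hlt : u < v := by
        have := C.acyclic v g a b hg
        rcases hu with rfl | rfl
        · exact this.1
        · exact this.2
      exact ih u hlt (Relation.ReflTransGen.head hu' hv)
  refine ⟨C', fun x => hval x o Relation.ReflTransGen.refl, fun u v => ?_⟩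
  constructor
  · rintro ⟨g, a, b, h, hu⟩
    obtain ⟨h1, h2⟩ := hop v g a b h
    exact ⟨⟨g, a, b, h2, hu⟩, h1⟩
  · rintro ⟨⟨g, a, b, h, hu⟩, h1⟩
    exact ⟨g, a, b, (hpos v h1).trans h, hu⟩

end Pool.Agent.W340.Pw.USED
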